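import Pool.Agent.X183.Upe.Main

/-!
# A u.p.e. system without ergodic measures of full support

The system is the subshift of `{0,1,2,3}^ℤ` of all `x` such that around every occurrence of the
word `3 2^n 3` every window of radius `R` contains at most `(2R+1)/n` ones.
-/

set_option autoImplicit false

open MeasureTheory Pool.Agent.X183.Upe

namespace Pool.Agent.Results.MP_6603ca_an.NoErgodicFullSupport

/-- There is a compact metrizable space `X` with a homeomorphism `T` such that `(X, T)` has uniform
positive entropy, while every `T`-invariant ergodic Borel probability measure vanishes on some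
non-empty open set, i.e. its support is a proper closed subset of `X`. -/
theorem result :
    ∃ (X : Type) (_ : TopologicalSpace X) (_ : CompactSpace X)
      (_ : TopologicalSpace.MetrizableSpace X) (_ : Nontrivial X) (T : X ≃ₜ X),
      UPE (T : X → X) ∧
      ∀ (_ : MeasurableSpace X) (_ : BorelSpace X) (μ : Measure X), IsProbabilityMeasure μ →
        Ergodic (T : X → X) μ → ∃ O : Set X, IsOpen O ∧ O.Nonempty ∧ μ O = 0 := by
  refine ⟨Sys, inferInstance, inferInstance, inferInstance, inferInstance, shift, upe, ?_⟩
  intro _ _ μ _ hμ
  exact exists_null μ hμ

end Pool.Agent.Results.MP_6603ca_an.NoErgodicFullSupport
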